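import Pool.Agent.Lib.helper21.Weih

set_option autoImplicit false

/-! A pinball machine: balls `n` descend through gates which protect computations. -/

namespace Pool.Agent.H.MP_9a65c4_lc

open Pool.Agent.Lib.helper21.PR Encodable Denumerable Filter
open Nat.Partrec (Code)
open Nat.Partrec.Code

attribute [local irreducible] Primrec Computable

def val (s n : ℕ) : ℕ := ((evaln s (ofNat Code n.unpair.1) n).map fun v => v + 1).getD 0

def gt (l : List (ℕ × List (List ℕ × ℕ × ℕ))) (i : ℕ) : ℕ × List (List ℕ × ℕ × ℕ) := l.getD i (0, [])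

def bb (s : ℕ) (l : List (ℕ × List (List ℕ × ℕ × ℕ))) (j n : ℕ) : ℕ :=
  if (gt l n).1 ≠ 0 ∧ n.unpair.1 + 1 ≤ j + (gt l n).1 then val s n else 0

def Vd (b : ℕ → ℕ) (σ : List ℕ) : Prop := ∀ y ∈ σ, y ≠ 0 → b (y - 1).unpair.1 ≤ (y - 1).unpair.2

def Inc (L : List (List ℕ × ℕ × ℕ)) : Prop := ∃ a ∈ L, ∃ c ∈ L, a.2.1 = c.2.1 ∧ a.2.2 ≠ c.2.2

def Dc (L : List (List ℕ × ℕ × ℕ)) (x : ℕ) : Prop := ∃ a ∈ L, a.2.1 = x

def en (s j : ℕ) : List (List ℕ × ℕ × ℕ) :=
  ((List.range s).filterMap fun i => decode i).filter fun a =>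
    (evaln s (ofNat Code j) (encode a)).isSome

noncomputable def Lp (s : ℕ) (l : List (ℕ × List (List ℕ × ℕ × ℕ))) (j : ℕ) :=
  (en s j).filter fun a => cd (Vd (bb s l (j + 1)) a.1)

noncomputable def G (s : ℕ) (l : List (ℕ × List (List ℕ × ℕ × ℕ))) (j : ℕ) :=
  (gt l j).2.filter fun a => cd (Vd (bb s l j) a.1)

open Classical in
noncomputable def nx (s : ℕ) (A B : List (List ℕ × ℕ × ℕ)) : List (List ℕ × ℕ × ℕ) :=
  if Inc A then A else if Inc (A ++ B) then A ++ B else
    if ∃ x ≤ s, ¬ Dc A x ∧ ∀ y ≤ x, Dc B y then B else A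

noncomputable def nL (s : ℕ) (l : List (ℕ × List (List ℕ × ℕ × ℕ))) (j : ℕ) :=
  nx s (G s l j) (Lp s l j)

def one (n v i : ℕ) : ℕ := if i = n then v else 0

open Classical in
noncomputable def nd (s : ℕ) (l : List (ℕ × List (List ℕ × ℕ × ℕ))) (n : ℕ) : ℕ :=
  if ((gt l n).1 = 0 ∧ val s n ≠ 0 ∧ ∀ k < s, k.unpair.1 = n.unpair.1 → (gt l k).1 ≠ n.unpair.1 + 1) ∨
    ((gt l n).1 ≠ 0 ∧ (gt l n).1 ≤ n.unpair.1 ∧
      ∀ a ∈ nL s l (n.unpair.1 - (gt l n).1), Vd (one n (val s n)) a.1)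
  then (gt l n).1 + 1 else (gt l n).1

noncomputable def st (s : ℕ) : List (ℕ × List (List ℕ × ℕ × ℕ)) :=
  Nat.rec [] (fun s l => (List.range (s + 1)).map fun n => (nd s l n, nL s l n)) s

section
variable {α : Type} [Primcodable α] {s j n : α → ℕ} {l : α → List (ℕ × List (List ℕ × ℕ × ℕ))}
  {A B : α → List (List ℕ × ℕ × ℕ)}

@[fun_prop] theorem val_p (hs : Primrec s) (hn : Primrec n) : Primrec fun a => val (s a) (n a) := by
  unfold val; fun_prop

@[fun_prop] theorem gt_p (hl : Primrec l) (hn : Primrec n) : Primrec fun a => gt (l a) (n a) := by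
  unfold gt; fun_prop

attribute [local irreducible] val gt

@[fun_prop] theorem bb_p (hs : Primrec s) (hl : Primrec l) (hj : Primrec j) (hn : Primrec n) :
    Primrec fun a => bb (s a) (l a) (j a) (n a) := by unfold bb; fun_prop

@[fun_prop] theorem Vd_p {b : α → ℕ → ℕ} {σ : α → List ℕ} (hb : Primrec fun z : α × ℕ => b z.1 z.2)
    (h : Primrec σ) : Primrec fun a => cd (Vd (b a) (σ a)) := by
  have : Primrec fun z : α × ℕ => b z.1 (z.2 - 1).unpair.1 :=
    hb.comp (g := fun z : α × ℕ => (z.1, (z.2 - 1).unpair.1)) (by fun_prop)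
  unfold Vd; fun_prop

@[fun_prop] theorem Inc_p (h : Primrec A) : Primrec fun a => cd (Inc (A a)) := by
  unfold Inc; fun_prop

@[fun_prop] theorem Dc_p (h : Primrec A) (hn : Primrec n) : Primrec fun a => cd (Dc (A a) (n a)) := by
  unfold Dc; fun_prop

@[fun_prop] theorem en_p (hs : Primrec s) (hj : Primrec j) : Primrec fun a => en (s a) (j a) := by
  unfold en; fun_prop

attribute [local irreducible] bb Vd Inc Dc en

@[fun_prop] theorem Lp_p (hs : Primrec s) (hl : Primrec l) (hj : Primrec j) :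
    Primrec fun a => Lp (s a) (l a) (j a) := by unfold Lp; fun_prop

@[fun_prop] theorem G_p (hs : Primrec s) (hl : Primrec l) (hj : Primrec j) :
    Primrec fun a => G (s a) (l a) (j a) := by unfold G; fun_prop

@[fun_prop] theorem nx_p (hs : Primrec s) (hA : Primrec A) (hB : Primrec B) :
    Primrec fun a => nx (s a) (A a) (B a) := by unfold nx; fun_prop

attribute [local irreducible] Lp G nx

@[fun_prop] theorem nL_p (hs : Primrec s) (hl : Primrec l) (hj : Primrec j) :
    Primrec fun a => nL (s a) (l a) (j a) := by unfold nL; fun_prop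

attribute [local irreducible] nL

@[fun_prop] theorem nd_p (hs : Primrec s) (hl : Primrec l) (hn : Primrec n) :
    Primrec fun a => nd (s a) (l a) (n a) := by unfold nd one; fun_prop

attribute [local irreducible] nd

@[fun_prop] theorem st_p : Primrec st := by unfold st; fun_prop

end

end Pool.Agent.H.MP_9a65c4_lc
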