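import Pool.Agent.H.MP_9a65c4_lc.A

set_option autoImplicit false

/-! Basic properties of the pinball machine. -/

namespace Pool.Agent.H.MP_9a65c4_lc

open Pool.Agent.Lib.helper21.PR Encodable Denumerable Filter Pool.Agent.Lib.helper21
open Nat.Partrec (Code)
open Nat.Partrec.Code

noncomputable def d (s n : ℕ) : ℕ := (gt (st s) n).1
noncomputable def L (s j : ℕ) := (gt (st s) j).2
noncomputable def b (s j n : ℕ) : ℕ := bb s (st s) j n

variable {s t n j : ℕ}

theorem gt_succ (s n : ℕ) :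
    gt (st (s + 1)) n = if n ≤ s then (nd s (st s) n, nL s (st s) n) else (0, []) := by
  show ((List.range (s + 1)).map fun n => (nd s (st s) n, nL s (st s) n)).getD n _ = _
  split_ifs with h
  · simp [Nat.lt_succ_of_le h]
  · simp [List.getD, List.getElem?_eq_none, show s + 1 ≤ n by omega]

theorem val_ex (h : val s n ≠ 0) : ∃ v, evaln s (ofNat Code n.unpair.1) n = some v ∧ val s n = v + 1 := by
  unfold val at *
  cases e : evaln s (ofNat Code n.unpair.1) n <;> simp_all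

theorem val_lt (h : val s n ≠ 0) : n < s := (val_ex h).elim fun _ k => evaln_bound k.1

theorem val_st (h : val s n ≠ 0) (k : s ≤ t) : val t n = val s n := by
  obtain ⟨v, a, c⟩ := val_ex h
  rw [c, val, show evaln t _ n = some v from evaln_mono k a]
  rfl

theorem d_big (h : s ≤ n) : d s n = 0 := by
  cases s with
  | zero => rfl
  | succ s => rw [d, gt_succ, if_neg (by omega)]

def Cd (s n : ℕ) : Prop :=
  (d s n = 0 ∧ val s n ≠ 0 ∧ ∀ k < s, k.unpair.1 = n.unpair.1 → d s k ≠ n.unpair.1 + 1) ∨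
    (d s n ≠ 0 ∧ d s n ≤ n.unpair.1 ∧
      ∀ a ∈ nL s (st s) (n.unpair.1 - d s n), Vd (one n (val s n)) a.1)

theorem d_succ (s n : ℕ) : Cd s n ∧ d (s + 1) n = d s n + 1 ∨ ¬ Cd s n ∧ d (s + 1) n = d s n := by
  by_cases h : n ≤ s
  · rw [d, gt_succ, if_pos h]
    by_cases c : Cd s n
    · exact .inl ⟨c, if_pos c⟩
    · exact .inr ⟨c, if_neg c⟩
  · have := d_big (s := s) (n := n) (by omega)
    exact .inr ⟨fun c => c.elim (fun c => h (val_lt c.2.1).le) fun c => c.1 this,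
      (d_big (by omega)).trans this.symm⟩

theorem d_mono (n : ℕ) : Monotone (d · n) :=
  monotone_nat_of_le_succ fun s => by rcases d_succ s n with h | h <;> omega

theorem d_le (s n : ℕ) : d s n ≤ n.unpair.1 + 1 := by
  induction s with
  | zero => exact (d_big n.zero_le).trans_le (Nat.zero_le _)
  | succ s ih => rcases d_succ s n with ⟨h | h, k⟩ | h <;> omega

theorem d_val (h : d s n ≠ 0) : val s n ≠ 0 := by
  induction s with
  | zero => exact absurd (d_big n.zero_le) h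
  | succ s ih =>
    have : val s n ≠ 0 := by
      rcases d_succ s n with ⟨a | a, k⟩ | a
      exacts [a.2.1, ih a.1, ih (a.2 ▸ h)]
    rwa [val_st this s.le_succ]

theorem lim {f : ℕ → ℕ} (h : Monotone f) {c : ℕ} (k : ∀ s, f s ≤ c) : ∃ D, ∀ᶠ s in atTop, f s = D := by
  obtain ⟨s, hs⟩ := Nat.sSup_mem (Set.range_nonempty f) ⟨c, Set.forall_mem_range.2 k⟩
  exact ⟨f s, (eventually_ge_atTop s).mono fun t ht => le_antisymm
    (hs ▸ le_csSup ⟨c, Set.forall_mem_range.2 k⟩ ⟨t, rfl⟩) (h ht)⟩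

theorem le_lim {f : ℕ → ℕ} (h : Monotone f) {D : ℕ} (k : ∀ᶠ s in atTop, f s = D) (s : ℕ) : f s ≤ D :=
  let ⟨_, a, c⟩ := (k.and (eventually_ge_atTop s)).exists; a ▸ h c

noncomputable def D (n : ℕ) : ℕ := (lim (d_mono n) fun s => d_le s n).choose
theorem D_ev (n : ℕ) : ∀ᶠ s in atTop, d s n = D n := (lim (d_mono n) fun s => d_le s n).choose_spec
theorem D_ge (s n : ℕ) : d s n ≤ D n := le_lim (d_mono n) (D_ev n) s

theorem val_ev (n : ℕ) : ∃ V, ∀ᶠ s in atTop, val s n = V := by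
  by_cases h : ∃ s, val s n ≠ 0
  · exact h.elim fun s h => ⟨_, (eventually_ge_atTop s).mono fun _ => val_st h⟩
  · exact ⟨0, .of_forall fun s => not_not.1 fun k => h ⟨s, k⟩⟩

noncomputable def B (j n : ℕ) : ℕ :=
  if D n ≠ 0 ∧ n.unpair.1 + 1 ≤ j + D n then (val_ev n).choose else 0

theorem b_eq (s j n : ℕ) :
    b s j n = if d s n ≠ 0 ∧ n.unpair.1 + 1 ≤ j + d s n then val s n else 0 := rfl

theorem B_ev (j n : ℕ) : ∀ᶠ s in atTop, b s j n = B j n :=
  ((D_ev n).and (val_ev n).choose_spec).mono fun s h => by rw [b_eq, B, h.1, h.2]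

theorem b_mono (j n : ℕ) : Monotone (b · j n) := fun s t h => by
  have := d_mono n h
  simp only [b_eq] at *
  split_ifs with a c
  exacts [(val_st (d_val a.1) h).ge, by omega, Nat.zero_le _, le_rfl]

theorem B_ge (s j n : ℕ) : b s j n ≤ B j n := le_lim (b_mono j n) (B_ev j n) s

theorem b_lev (s n : ℕ) {i j : ℕ} (h : i ≤ j) : b s i n ≤ b s j n := by
  simp only [b_eq]
  split_ifs with a c
  exacts [le_rfl, by omega, Nat.zero_le _, le_rfl]

theorem B_lev (n : ℕ) {i j : ℕ} (h : i ≤ j) : B i n ≤ B j n :=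
  let ⟨s, a, c⟩ := ((B_ev i n).and (B_ev j n)).exists; a ▸ c ▸ b_lev s n h

theorem Vd.mono {f g : ℕ → ℕ} {σ : List ℕ} (h : Vd g σ) (k : ∀ n, f n ≤ g n) : Vd f σ :=
  fun y a c => (k _).trans (h y a c)

def Iss (e : ℕ) : Prop := {n | n.unpair.1 = e ∧ D n ≠ 0}.Finite
def Stk (j : ℕ) : Prop := {n | D n ≠ 0 ∧ n.unpair.1 = j + D n}.Finite

theorem iss {e : ℕ} (h : ∀ j < e, Stk j) : Iss e := by
  by_cases k : ∃ n, n.unpair.1 = e ∧ D n = e + 1
  · obtain ⟨n, h1, h2⟩ := k
    obtain ⟨t, ht⟩ := eventually_atTop.1 ((D_ev n).and (eventually_gt_atTop n))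
    refine (Set.finite_Iio t).subset fun m ⟨a, c⟩ => val_lt (d_val fun z => c ?_)
    have : ∀ s ≥ t, d s m = 0 := fun s hs => by
      induction s, hs using Nat.le_induction with
      | base => exact z
      | succ s hs ih =>
        rcases d_succ s m with ⟨u | u, -⟩ | u
        · exact absurd ((ht s hs).1.trans (h2.trans (by rw [a]))) (u.2.2 n (ht s hs).2 (h1.trans a.symm))
        · exact absurd ih u.1
        · exact u.2.trans ih
    obtain ⟨s, u, v⟩ := ((D_ev m).and (eventually_ge_atTop t)).exists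
    exact u ▸ this s v
  · refine ((Set.finite_Iio e).biUnion fun j hj => h j hj).subset fun n ⟨a, c⟩ => ?_
    obtain ⟨s, u⟩ := (D_ev n).exists
    have := d_le s n
    have : D n ≠ e + 1 := fun z => k ⟨n, a, z⟩
    have := d_le s n
    exact Set.mem_biUnion (x := e - D n) (show e - D n < e by omega) ⟨c, by omega⟩

theorem L_succ (h : j ≤ s) : L (s + 1) j = nL s (st s) j := by rw [L, gt_succ, if_pos h]

theorem nx_sub {A C : List (List ℕ × ℕ × ℕ)} {a} (h : a ∈ nx s A C) : a ∈ A ∨ a ∈ C := by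
  unfold nx at h
  split_ifs at h
  exacts [.inl h, List.mem_append.1 h, .inr h, .inl h]

theorem mem_Lp {a} : a ∈ Lp s (st s) j ↔ a ∈ en s j ∧ Vd (b s (j + 1)) a.1 := by
  simp only [Lp, List.mem_filter, cd_true]; rfl

theorem mem_G {a} : a ∈ G s (st s) j ↔ a ∈ L s j ∧ Vd (b s j) a.1 := by
  simp only [G, List.mem_filter, cd_true]; rfl

theorem en_U {a} (h : a ∈ en s j) : Wh.U j a := by
  obtain ⟨v, hv⟩ := Option.isSome_iff_exists.1 (List.mem_filter.1 h).2
  exact Part.dom_iff_mem.2 ⟨v, evaln_sound hv⟩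

theorem en_ev {a} (h : Wh.U j a) : ∀ᶠ s in atTop, a ∈ en s j := by
  obtain ⟨v, hv⟩ := Part.dom_iff_mem.1 h
  obtain ⟨k, hk⟩ := evaln_complete.1 hv
  exact ((eventually_ge_atTop k).and (eventually_gt_atTop (encode a))).mono fun s hs =>
    List.mem_filter.2 ⟨List.mem_filterMap.2 ⟨_, List.mem_range.2 hs.2, encodek a⟩,
      Option.isSome_iff_exists.2 ⟨v, evaln_mono hs.1 hk⟩⟩

theorem Lp_ev {a} (h : Wh.U j a) (k : Vd (B (j + 1)) a.1) : ∀ᶠ s in atTop, a ∈ Lp s (st s) j :=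
  (en_ev h).mono fun s hs => mem_Lp.2 ⟨hs, k.mono (B_ge s _)⟩

theorem L_U {a} (h : a ∈ L s j) : Wh.U j a := by
  induction s with
  | zero => cases h
  | succ s ih =>
    by_cases c : j ≤ s
    · exact (nx_sub (L_succ c ▸ h)).elim (fun k => ih (mem_G.1 k).1) fun k => en_U (mem_Lp.1 k).1
    · rw [L, gt_succ, if_neg c] at h; cases h

theorem quiet (h : ∀ e ≤ j, Iss e) :
    ∃ t, j < t ∧ ∀ s ≥ t, (∀ a ∈ L s j, Vd (b s j) a.1) ∧ L (s + 1) j = nx s (L s j) (Lp s (st s) j) := by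
  have f := (Set.finite_Iic j).biUnion fun e he => h e he
  obtain ⟨t, ht⟩ := eventually_atTop.1 (((eventually_all_finite f).2 fun n _ => D_ev n).and
    (eventually_ge_atTop j))
  have v : ∀ s ≥ t + 1, ∀ a ∈ L s j, Vd (b s j) a.1 := fun s hs a ha y hy z => by
    obtain ⟨s, rfl⟩ : ∃ r, s = r + 1 := ⟨s - 1, by omega⟩
    obtain ⟨h1, h2⟩ := ht s (by omega)
    rw [L_succ h2] at ha
    have w : Vd (b s j) a.1 := (nx_sub ha).elim (fun k => (mem_G.1 k).2) fun k =>
      (mem_Lp.1 k).2.mono fun n => b_lev s n j.le_succ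
    replace w := w y hy z
    set n := (y - 1).unpair.1 with hn
    rw [b_eq] at w ⊢
    split_ifs with c
    swap
    · exact Nat.zero_le _
    by_cases c' : d s n ≠ 0 ∧ n.unpair.1 + 1 ≤ j + d s n
    · rwa [if_pos c', ← val_st (d_val c'.1) s.le_succ] at w
    rcases d_succ s n with ⟨u | u, k⟩ | u
    · have := D_ge (s + 1) n
      have := h1 n (Set.mem_biUnion (x := n.unpair.1) (show n.unpair.1 ≤ j by omega) ⟨rfl, by omega⟩)
      omega
    · have := u.2.2 a (by rwa [show n.unpair.1 - d s n = j by omega]) y hy z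
      rwa [← hn, one, if_pos rfl, ← val_st (d_val u.1) s.le_succ] at this
    · exact absurd (u.2 ▸ c) c'
  refine ⟨t + 1, by have := (ht t le_rfl).2; omega, fun s hs => ⟨v s hs, ?_⟩⟩
  rw [L_succ (ht s (by omega)).2, nL]
  congr 1
  exact List.filter_eq_self.2 fun a ha => cd_true.2 (v s hs a ha)

theorem stuck (h : D n ≠ 0) (k : n.unpair.1 = j + D n) : ∀ᶠ s in atTop,
    ∃ a ∈ L (s + 1) j, ¬ Vd (b s (j + 1)) a.1 ∧ ∃ y ∈ a.1, (y - 1).unpair.1 = n := by
  obtain ⟨t, ht⟩ := eventually_atTop.1 (D_ev n)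
  refine ((eventually_ge_atTop t).and (eventually_ge_atTop j)).mono fun s hs => ?_
  have h1 := ht s hs.1
  have h2 := ht (s + 1) (by omega)
  rcases d_succ s n with u | u
  · omega
  by_contra c
  refine u.1 (.inr ⟨by omega, by omega, fun a ha y hy z => ?_⟩)
  rw [show n.unpair.1 - d s n = j by omega, ← L_succ hs.2] at ha
  unfold one
  split_ifs with e
  · have := not_not.1 (fun w => c ⟨a, ha, w, y, hy, e⟩) y hy z
    rwa [e, b_eq, if_pos ⟨by omega, by omega⟩] at this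
  · exact Nat.zero_le _

end Pool.Agent.H.MP_9a65c4_lc
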