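import Pool.Agent.H.MP_9a65c4_lc.B

set_option autoImplicit false

/-! The requirements are met. -/

namespace Pool.Agent.H.MP_9a65c4_lc

open Pool.Agent.Lib.helper21.PR Encodable Denumerable Filter Pool.Agent.Lib.helper21
open Nat.Partrec (Code)
open Nat.Partrec.Code

attribute [local irreducible] Primrec Computable

theorem sel {R : ℕ → ℕ → Prop} (h : REPred fun z : ℕ × ℕ => R z.1 z.2) (k : ∀ x, ∃ v, R x v) :
    ∃ g, Computable g ∧ ∀ x, R x (g x) := by
  obtain ⟨N, h1, h2, -, h3⟩ := re_bool h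
  have e : ∀ x, ∃ u : ℕ, N (x, u.unpair.1) u.unpair.2 = true := fun x =>
    (k x).elim fun v hv => (h3 (x, v) hv).elim fun t ht => ⟨Nat.pair v t, by simpa using ht⟩
  have := Computable.find (P := fun x (u : ℕ) => N (x, u.unpair.1) u.unpair.2 = true)
    (PrimrecPred.computablePred (pred (by fun_prop))) e
  exact ⟨fun x => (Nat.find (e x)).unpair.1, by fun_prop, fun x => h2 _ _ (Nat.find_spec (e x))⟩

def Out (W : List ℕ × ℕ × ℕ → Prop) (f g : ℕ → ℕ) : Prop :=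
  (∃ a c, W a ∧ W c ∧ Vd f a.1 ∧ Vd f c.1 ∧ a.2.1 = c.2.1 ∧ a.2.2 ≠ c.2.2) ∨
    (∃ x, ∀ a, W a → Vd g a.1 → a.2.1 ≠ x) ∨
      ∃ X, Computable X ∧ ∀ a, W a → Vd g a.1 → X a.2.1 = a.2.2

variable {s j : ℕ} {A C : List (List ℕ × ℕ × ℕ)}

theorem nx_inc (h : Inc A) : nx s A C = A := if_pos h
theorem nx_inc' (h : Inc (A ++ C)) : Inc (nx s A C) := by
  unfold nx; split_ifs; exacts [‹_›, h]
theorem nx_or (h : ¬ Inc (A ++ C)) : (∃ x ≤ s, ¬ Dc A x ∧ ∀ y ≤ x, Dc C y) ∧ nx s A C = C ∨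
    ¬ (∃ x ≤ s, ¬ Dc A x ∧ ∀ y ≤ x, Dc C y) ∧ nx s A C = A := by
  have : ¬ Inc A := fun ⟨a, h1, c, h2, k⟩ =>
    h ⟨a, List.mem_append_left _ h1, c, List.mem_append_left _ h2, k⟩
  rw [nx, if_neg this, if_neg h]
  split_ifs with k
  exacts [.inl ⟨k, rfl⟩, .inr ⟨k, rfl⟩]

theorem gate (h : ∀ e ≤ j, Iss e) : Stk j ∧ Out (Wh.U j) (B 0) (B (j + 1)) := by
  obtain ⟨t, -, ht⟩ := quiet h
  by_cases c : ∃ A, ∀ᶠ s in atTop, L s j = A
  · obtain ⟨A, hA⟩ := c
    have hA' : ∀ᶠ s in atTop, L (s + 1) j = A := (tendsto_add_atTop_nat 1).eventually hA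
    refine ⟨((A.flatMap fun a => a.1.map fun y => (y - 1).unpair.1).finite_toSet).subset
      fun n ⟨a, b⟩ => ?_, ?_⟩
    · obtain ⟨s, ⟨u, h1, -, y, h2, h3⟩, e⟩ := ((stuck a b).and hA').exists
      exact List.mem_flatMap.2 ⟨u, e ▸ h1, List.mem_map.2 ⟨y, h2, h3⟩⟩
    have v : ∀ a ∈ A, Wh.U j a ∧ Vd (B 0) a.1 := fun a ha => by
      obtain ⟨s, e⟩ := hA.exists
      refine ⟨L_U (e ▸ ha), fun y hy z => ?_⟩
      obtain ⟨s, ⟨h1, h2⟩, h3⟩ := ((hA.and (eventually_ge_atTop t)).and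
        (B_ev 0 (y - 1).unpair.1)).exists
      exact h3 ▸ (b_lev s _ j.zero_le).trans ((ht s h2).1 a (h1 ▸ ha) y hy z)
    by_cases i : Inc A
    · obtain ⟨a, h1, c, h2, k⟩ := i
      exact .inl ⟨a, c, (v a h1).1, (v c h2).1, (v a h1).2, (v c h2).2, k⟩
    refine .inr (.inl (by_contra fun k => ?_))
    simp only [not_exists, not_forall, not_not] at k
    choose a h1 h2 h3 using k
    obtain ⟨x, hx⟩ := Infinite.exists_notMem_finset (A.map fun a => a.2.1).toFinset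
    replace hx : ¬ Dc A x := fun ⟨a, u, w⟩ => hx (List.mem_toFinset.2 (List.mem_map.2 ⟨a, u, w⟩))
    obtain ⟨s, ⟨⟨u1, u2⟩, u3, u4⟩, u5⟩ := (((hA.and hA').and ((eventually_ge_atTop t).and
      (eventually_ge_atTop x))).and ((eventually_all_finite (Set.finite_Iic x)).2 fun y _ =>
        Lp_ev (h1 y) (h2 y))).exists
    have e := (ht s u3).2
    rw [u1, u2] at e
    have w : ∀ y ≤ x, Dc (Lp s (st s) j) y := fun y hy => ⟨_, u5 y hy, h3 y⟩
    rcases nx_or (s := s) fun z => i (e ▸ nx_inc' z) with z | z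
    · exact hx (e.trans z.2 ▸ w x le_rfl)
    · exact z.1 ⟨x, u4, hx, w⟩
  have n1 : ∀ s ≥ t, ¬ Inc (L s j ++ Lp s (st s) j) := fun s hs i => c ⟨L (s + 1) j,
    (eventually_ge_atTop (s + 1)).mono fun r hr => by
      induction r, hr using Nat.le_induction with
      | base => rfl
      | succ r hr ih => rw [(ht r (by omega)).2, ih, nx_inc ((ht s hs).2 ▸ nx_inc' i)]⟩
  have n2 : ∀ s ≥ t, ∃ r ≥ s, (∃ x ≤ r, ¬ Dc (L r j) x ∧ ∀ y ≤ x, Dc (Lp r (st r) j) y) ∧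
      L (r + 1) j = Lp r (st r) j := fun s hs => by_contra fun k => c ⟨L s j,
    (eventually_ge_atTop s).mono fun r hr => by
      induction r, hr using Nat.le_induction with
      | base => rfl
      | succ r hr ih =>
        rcases nx_or (s := r) (n1 r (by omega)) with z | z
        · exact absurd ⟨r, hr, z.1, (ht r (by omega)).2.trans z.2⟩ k
        · rw [(ht r (by omega)).2, z.2, ih]⟩
  have n3 : ∀ s ≥ t, ∀ x v, (∀ y ≤ x, Dc (L s j) y) → (∃ σ, (σ, x, v) ∈ L s j) → ∀ r ≥ s,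
      (∀ y ≤ x, Dc (L r j) y) ∧ ∃ σ, (σ, x, v) ∈ L r j := fun s hs x v a1 a2 r hr => by
    induction r, hr using Nat.le_induction with
    | base => exact ⟨a1, a2⟩
    | succ r hr ih =>
      rw [(ht r (by omega)).2]
      rcases nx_or (s := r) (n1 r (by omega)) with ⟨⟨z, -, z1, z2⟩, e⟩ | z
      · rw [e]
        have : x < z := not_le.1 fun w => z1 (ih.1 z w)
        obtain ⟨⟨σ, x', v'⟩, k, rfl⟩ := z2 x this.le
        obtain ⟨ρ, k'⟩ := ih.2
        exact ⟨fun y hy => z2 y (hy.trans this.le), σ, by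
          rwa [show v = v' from not_not.1 fun w => n1 r (by omega)
            ⟨_, List.mem_append_left _ k', _, List.mem_append_right _ k, rfl, w⟩]⟩
      · rwa [z.2]
  have n4 : ∀ x, ∃ s ≥ t, ∀ y < x, Dc (L s j) y := fun x => by
    induction x with
    | zero => exact ⟨t, le_rfl, by simp⟩
    | succ x ih =>
      obtain ⟨s, hs, k⟩ := ih
      obtain ⟨r, hr, ⟨z, -, z1, z2⟩, e⟩ := n2 s hs
      refine ⟨r + 1, by omega, fun y hy => e ▸ z2 y (not_lt.1 fun w => z1 ?_)⟩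
      obtain ⟨⟨σ, z', v⟩, u, e'⟩ := k z (by omega)
      obtain rfl : z' = z := e'
      exact (n3 s hs _ v (fun y hy' => k y (by omega)) ⟨σ, u⟩ r hr).1 _ le_rfl
  refine ⟨Set.finite_empty.subset fun n ⟨a, b⟩ => ?_, .inr (.inr ?_)⟩
  · obtain ⟨s, hs⟩ := eventually_atTop.1 (stuck a b)
    obtain ⟨r, hr, -, e⟩ := n2 (max s t) (le_max_right _ _)
    obtain ⟨u, h1, h2, -⟩ := hs r (le_of_max_le_left hr)
    exact h2 (mem_Lp.1 (e ▸ h1)).2
  · have hL : Primrec fun s => L s j := by unfold L; fun_prop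
    obtain ⟨X, h1, h2⟩ := sel (R := fun x v => ∃ s, t ≤ s ∧ (∀ y ≤ x, Dc (L s j) y) ∧
      ∃ σ, (σ, x, v) ∈ L s j) (RE.re (by fun_prop)) fun x => by
        obtain ⟨s, hs, k⟩ := n4 (x + 1)
        obtain ⟨⟨σ, _, v⟩, u, rfl⟩ := k x (by omega)
        exact ⟨v, s, hs, fun y hy => k y (by omega), σ, u⟩
    refine ⟨X, h1, fun a a1 a2 => ?_⟩
    obtain ⟨s, hs, k1, k2⟩ := h2 a.2.1
    obtain ⟨r, u, hr⟩ := ((Lp_ev a1 a2).and (eventually_ge_atTop s)).exists
    obtain ⟨σ, w⟩ := (n3 s hs _ _ k1 k2 r hr).2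
    exact not_not.1 fun z => n1 r (hs.trans hr)
      ⟨_, List.mem_append_left _ w, _, List.mem_append_right _ u, rfl, z⟩

theorem stk (j : ℕ) : Stk j := by
  induction j using Nat.strong_induction_on with
  | _ j ih => exact (gate fun e he => iss fun i hi => ih i (by omega)).1

theorem negR {W : List ℕ × ℕ × ℕ → Prop} (h : REPred W) :
    ∃ g k, (∀ n, B 0 n ≤ g n) ∧ (∀ n ≥ k, g n = B 0 n) ∧ Out W (B 0) g := by
  obtain ⟨c, hc⟩ := re_code h
  have e : W = Wh.U (encode c) := funext fun a => propext (by rw [hc, Wh.U, ofNat_encode])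
  obtain ⟨k, hk⟩ := ((Set.finite_Iic (encode c)).biUnion fun i _ => stk i).bddAbove
  refine ⟨_, k + 1, fun n => B_lev n (Nat.zero_le _), fun n hn => ?_,
    e ▸ (gate fun e _ => iss fun i _ => stk i).2⟩
  unfold B
  refine if_congr (and_congr_right fun a => ⟨fun z => by_contra fun w => ?_, by omega⟩) rfl rfl
  have := hk (Set.mem_biUnion (x := n.unpair.1 - D n) (show _ ≤ encode c by omega) ⟨a, by omega⟩)
  omega

theorem posR {g : ℕ → ℕ} (h : Computable g) : ∃ n, g n < B 0 n := by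
  obtain ⟨c, hc⟩ := exists_code.1 (Partrec.nat_iff.1 h.partrec)
  have v : ∀ n, n.unpair.1 = encode c → ∀ᶠ s in atTop, val s n = g n + 1 := fun n hn => by
    obtain ⟨k, hk⟩ := evaln_complete.1 (show g n ∈ c.eval n by simp [hc])
    refine (eventually_ge_atTop k).mono fun s hs => ?_
    rw [val, hn, ofNat_encode, show evaln s c n = some _ from evaln_mono hs hk]
    rfl
  by_cases k : ∃ n, n.unpair.1 = encode c ∧ D n = encode c + 1
  · obtain ⟨n, h1, h2⟩ := k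
    obtain ⟨s, ⟨a1, a2⟩, a3⟩ := (((v n h1).and (D_ev n)).and (B_ev 0 n)).exists
    exact ⟨n, by rw [← a3, b_eq, if_pos (by omega)]; omega⟩
  refine absurd (iss fun i (_ : i < encode c) => stk i) (Set.infinite_of_injective_forall_mem
    (f := Nat.pair (encode c)) (fun x y e => (Nat.pair_eq_pair.1 e).2) fun x => ?_)
  have e : (Nat.pair (encode c) x).unpair.1 = encode c := by simp
  refine ⟨e, fun z => ?_⟩
  obtain ⟨s, hs⟩ := (v _ e).exists
  have a1 := D_ge s (Nat.pair (encode c) x)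
  have a2 := D_ge (s + 1) (Nat.pair (encode c) x)
  rcases d_succ s (Nat.pair (encode c) x) with u | u
  · omega
  refine u.1 (.inl ⟨by omega, by omega, fun m _ a w => k ⟨m, a.trans e, ?_⟩⟩)
  obtain ⟨r, hr⟩ := (D_ev m).exists
  have := d_le r m
  have := D_ge s m
  omega

end Pool.Agent.H.MP_9a65c4_lc
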