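import Pool.Agent.H.MP_9a65c4_lc.C
import Pool.Agent.H.MP_73efbe_lc.A

set_option autoImplicit false

/-! A generic majorant and the functional. -/

namespace Pool.Agent.H.MP_9a65c4_lc

open Pool.Agent.Lib.helper21.PR Encodable Filter Pool.Agent.Lib.helper21 Pool.Agent.H.MP_73efbe_lc
open Pool.Agent.Lib.helper21.Wh Topology

attribute [local irreducible] Primrec Computable

theorem dense {W : List ℕ × ℕ × ℕ → Prop} (h : REPred W) (v : ℕ → ℕ) (n : ℕ) :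
    ∃ v' n', Ag n v v' ∧ ∀ w, Ag n' v' w → Out W (B 0 + w) (B 0 + w) := by
  replace h := RE.un h
  obtain ⟨ρ, hρ⟩ : ∃ ρ : List ℕ, ∀ i < n, ρ.getD i 0 = B 0 i + v i := ⟨pr (B 0 + v) n, fun _ => pr_getD⟩
  obtain ⟨g, k, h1, h2, h3⟩ := negR (W := fun a => ∃ σ, W (σ, a.2) ∧ ∀ y ∈ σ, y = 0 ∨
    (y - 1).unpair.1 < n ∧ ρ.getD (y - 1).unpair.1 0 ≤ (y - 1).unpair.2 ∨
      n ≤ (y - 1).unpair.1 ∧ y ∈ a.1) (RE.re (by fun_prop))
  rcases h3 with ⟨a, c, ⟨σ, a1, a2⟩, ⟨τ, c1, c2⟩, a3, c3, e⟩ | h3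
  · refine ⟨fun i => if i < n then v i else 0, n + (σ ++ τ).sum, fun i hi => if_pos hi, fun w hw => ?_⟩
    have : ∀ {η ξ : List ℕ}, η ⊆ σ ++ τ → Vd (B 0) ξ → (∀ y ∈ η, y = 0 ∨
        (y - 1).unpair.1 < n ∧ ρ.getD (y - 1).unpair.1 0 ≤ (y - 1).unpair.2 ∨
          n ≤ (y - 1).unpair.1 ∧ y ∈ ξ) → Vd (B 0 + w) η := fun k1 k2 k3 y hy z => by
      have := List.single_le_sum (by simp) y (k1 hy)
      have := Nat.unpair_left_le (y - 1)
      rw [Pi.add_apply, hw _ (by omega)]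
      rcases k3 y hy with u | u | u
      · exact absurd u z
      · simpa only [if_pos u.1, hρ _ u.1] using u.2
      · simpa only [if_neg u.1.not_gt, add_zero] using k2 y u.2 z
    exact .inl ⟨(σ, a.2), (τ, c.2), a1, c1, this (by simp) a3 a2, this (by simp) c3 c2, e⟩
  refine ⟨fun i => if i < n then v i else g i - B 0 i, n + k, fun i hi => if_pos hi, fun w hw => ?_⟩
  have : ∀ a, W a → Vd (B 0 + w) a.1 → ∃ η, (∃ σ, W (σ, a.2) ∧ ∀ y ∈ σ, y = 0 ∨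
      (y - 1).unpair.1 < n ∧ ρ.getD (y - 1).unpair.1 0 ≤ (y - 1).unpair.2 ∨
        n ≤ (y - 1).unpair.1 ∧ y ∈ η) ∧ Vd g η := fun a a1 a2 => by
    refine ⟨a.1.filter fun y => n ≤ (y - 1).unpair.1, ⟨a.1, a1, fun y hy => or_iff_not_imp_left.2
      fun z => (lt_or_ge _ n).imp (fun u => ⟨u, ?_⟩) fun u => ⟨u, by simp [hy, u]⟩⟩, fun y hy z => ?_⟩
    · have := a2 y hy z
      rw [Pi.add_apply, hw _ (by omega)] at this
      simpa only [if_pos u, hρ _ u] using this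
    · obtain ⟨u1, u2⟩ := List.mem_filter.1 hy
      replace u2 := of_decide_eq_true u2
      have := a2 y u1 z
      rw [Pi.add_apply] at this
      by_cases u : (y - 1).unpair.1 < n + k
      · simp only [hw _ u, if_neg u2.not_gt] at this
        omega
      · have := h2 (y - 1).unpair.1 (by omega)
        omega
  refine .inr (h3.imp (Exists.imp fun x hx a a1 a2 => ?_) (Exists.imp fun X hX =>
    ⟨hX.1, fun a a1 a2 => ?_⟩))
  · exact (this a a1 a2).elim fun η u => hx (η, a.2) u.1 u.2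
  · exact (this a a1 a2).elim fun η u => hX.2 (η, a.2) u.1 u.2

theorem generic : ∃ h : ℕ → ℕ, (∀ n, B 0 n ≤ h n) ∧ ∀ W, REPred W → Out W h h := by
  obtain ⟨u, hu⟩ := baire fun (e : ℕ) u => Out (U e) (B 0 + u) (B 0 + u)
  refine ⟨B 0 + u, fun n => Nat.le_add_right _ _, fun W hW => ?_⟩
  obtain ⟨e, rfl⟩ := ex_U hW
  obtain ⟨n, h | h⟩ := hu e
  · exact h u fun _ _ => rfl
  · obtain ⟨v, m, h1, h2⟩ := dense hW u n
    obtain ⟨w, h3, h4⟩ := h v m h1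
    exact absurd (h2 w h3) h4

def EP (h : ℕ → ℕ) : Set ℕ := {k | h k.unpair.1 ≤ k.unpair.2}

variable {h p : ℕ → ℕ}

theorem vd_pr (k : EP h = {k | ∃ n, p n = k + 1}) (l : ℕ) : Vd h (pr p l) := fun y hy z => by
  obtain ⟨i, -, rfl⟩ := List.mem_map.1 hy
  exact (show p i - 1 ∈ EP h from k ▸ ⟨i, by omega⟩)

theorem ex_name (h : ℕ → ℕ) : ∃ p : ℕ → ℕ, EP h = {k | ∃ n, p n = k + 1} := by
  classical
  refine ⟨fun n => if n ∈ EP h then n + 1 else 0, Set.ext fun k => ⟨fun a => ⟨k, if_pos a⟩, ?_⟩⟩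
  rintro ⟨n, a⟩
  dsimp only at a
  split_ifs at a with c
  exact Nat.succ_injective a ▸ c

theorem ext_name {σ : List ℕ} (k : Vd h σ) :
    ∃ p : ℕ → ℕ, EP h = {k | ∃ n, p n = k + 1} ∧ pr p σ.length = σ := by
  obtain ⟨q, hq⟩ := ex_name h
  refine ⟨fun i => if i < σ.length then σ.getD i 0 else q (i - σ.length), Set.ext fun y =>
    ⟨fun a => ?_, ?_⟩, eq_pr fun i hi => if_pos hi⟩
  · obtain ⟨n, a⟩ : y ∈ {k | ∃ n, q n = k + 1} := hq ▸ a
    exact ⟨n + σ.length, by simpa using a⟩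
  · rintro ⟨n, a⟩
    dsimp only at a
    split_ifs at a with c
    · exact k (y + 1) (a ▸ by simp [c]) y.succ_ne_zero
    · exact hq ▸ ⟨_, a⟩

theorem quasi {W : List ℕ × ℕ × ℕ → Prop} {f : ℕ → ℕ} (o : Out W h h)
    (k : ∀ p : ℕ → ℕ, EP h = {k | ∃ n, p n = k + 1} → Maps W p f) : Computable f := by
  have a : ∀ a, W a → Vd h a.1 → f a.2.1 = a.2.2 := fun a a1 a2 =>
    let ⟨p, u, v⟩ := ext_name a2; (k p u _ _).1 ⟨a.1.length, by rwa [v]⟩
  obtain ⟨q, hq⟩ := ex_name h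
  have c := fun x => (k q hq x _).2 rfl
  rcases o with ⟨u, v, u1, v1, u2, v2, e, z⟩ | ⟨x, hx⟩ | ⟨X, h1, h2⟩
  · exact absurd ((a u u1 u2).symm.trans (e ▸ a v v1 v2)) z
  · exact (c x).elim fun l z => absurd rfl (hx _ z (vd_pr hq l))
  · exact h1.of_eq fun x => (c x).elim fun l z => h2 _ z (vd_pr hq l)

theorem c_re {q : ℕ → ℕ} (h : Computable q) : RE fun z : ℕ × ℕ => q z.1 = z.2 :=
  RE.un (RE.re ((r_graph h.partrec).of_eq fun z => by simp [eq_comm]))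

theorem nobound {R : ℕ → ℕ → Prop} (h : RE fun z : ℕ × ℕ => pw (R z.1 z.2)) (k : ∀ x, ∃ v, R x v) :
    ∃ n v, R n v ∧ v < B 0 n :=
  let ⟨_, h1, h2⟩ := sel h.re k; let ⟨n, h3⟩ := posR h1; ⟨n, _, h2 n, h3⟩

theorem not_ce (k : ∀ n, B 0 n ≤ h n) (c : Computable p) : EP h ≠ {k | ∃ n, p n = k + 1} := fun e => by
  have := c_re c
  obtain ⟨n, v, a1, a2⟩ := nobound (R := fun n v => ∃ i, p i = Nat.pair n v + 1) (r_exists (r_pw
    (r_comp (f := fun z : (ℕ × ℕ) × ℕ => (z.2, Nat.pair z.1.1 z.1.2 + 1)) this (by fun_prop))))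
    fun n => ⟨h n, show Nat.pair n (h n) ∈ {k | ∃ n, p n = k + 1} from e ▸ by simp [EP]⟩
  have : Nat.pair n v ∈ EP h := e ▸ a1
  simp only [EP, Set.mem_ofPred_eq, Nat.unpair_pair] at this
  exact (a2.trans_le (k n)).not_ge this

open Classical in
noncomputable def Ph (f : ℕ → ℕ) : ℕ := if ∃ t, t < b (f (t + 1)) 0 (f 0) then 1 else 0

theorem Ph_congr {f g : ℕ → ℕ} (e : ∀ i ≤ B 0 (f 0), g i = f i) : Ph g = Ph f := by
  classical
  unfold Ph
  rw [e 0 (Nat.zero_le _)]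
  exact if_congr (exists_congr fun t => ⟨fun a => e (t + 1) (a.trans_le (B_ge _ _ _)) ▸ a,
    fun a => (e (t + 1) (a.trans_le (B_ge _ _ _))).symm ▸ a⟩) rfl rfl

theorem Ph_cont : Continuous Ph :=
  ((IsLocallyConstant.iff_eventually_eq Ph).2 fun f =>
    ((eventually_all_finite (Set.finite_Iic (B 0 (f 0)))).2 fun i _ =>
      show ∀ᶠ g in 𝓝 f, g i = f i from ((isOpen_discrete {f i}).preimage
        (continuous_apply i)).mem_nhds (x := f) (Set.mem_singleton _)).mono fun _ => Ph_congr).continuous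

def As (q : ℕ → ℕ) (Φ : (ℕ → ℕ) → ℕ) : Prop :=
  ∀ f, ∃ k, (∀ n < k, q (encode (pr f n)) = 0) ∧ ∀ n ≥ k, q (encode (pr f n)) = Φ f + 1

theorem not_as {q : ℕ → ℕ} (c : Computable q) : ¬ As q Ph := fun a => by
  have := c_re c
  obtain ⟨n, l, ⟨v, a1⟩, a2⟩ := nobound
    (R := fun n l => ∃ v, q (encode (pr (fun i => if i = 0 then n else 0) l)) = v + 1) (r_exists (r_pw
    (r_comp (f := fun z : (ℕ × ℕ) × ℕ =>
      (encode (pr (fun i => if i = 0 then z.1.1 else 0) z.1.2), z.2 + 1)) this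
        (by unfold pr; fun_prop)))) fun n => (a _).imp fun k hk => ⟨_, hk.2 k le_rfl⟩
  have e : ∀ f, pr f l = pr (fun i => if i = 0 then n else 0) l → Ph f = v := fun f e => by
    obtain ⟨k, h1, h2⟩ := a f
    have := h2 l (not_lt.1 fun z => by have := h1 l z; rw [e] at this; omega)
    rw [e] at this
    omega
  obtain ⟨s, hs⟩ := (B_ev 0 n).exists
  have e1 := e _ rfl
  have e2 := e (fun i => if i = 0 then n else if i = l + 1 then s else 0) (pr_congr fun i hi => by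
    rw [if_neg (show i ≠ l + 1 by omega)])
  rw [Ph, if_neg fun ⟨t, z⟩ => by simp [b_eq, d_big] at z] at e1
  rw [Ph, if_pos ⟨l, by simpa [hs] using a2⟩] at e2
  omega

open Classical in
noncomputable def al (σ τ : List ℕ) : ℕ :=
  if ∃ y ∈ σ, y ≠ 0 ∧ (y - 1).unpair.1 = τ.getD 0 0 ∧ (y - 1).unpair.2 < τ.length then
    (if ∃ t < τ.length, t < b (τ.getD (t + 1) 0) 0 (τ.getD 0 0) then 1 else 0) + 1 else 0

theorem red (k : ∀ n, B 0 n ≤ h n) : ∃ W, REPred W ∧ ∀ p : ℕ → ℕ, EP h = {k | ∃ n, p n = k + 1} →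
    ∃ q, Maps W p q ∧ As q Ph := by
  have c : Primrec fun z : List ℕ × List ℕ => al z.1 z.2 := by unfold al b; fun_prop
  refine ⟨fun z => z.1.length = ((decode z.2.1).getD ([] : List ℕ)).length ∧
    al z.1 ((decode z.2.1).getD []) = z.2.2, RE.re (r_prim (p_dand (by fun_prop) (p_eq (p_comp
      (g := fun z : List ℕ × ℕ × ℕ => (z.1, (decode z.2.1).getD [])) c (by fun_prop)) (by fun_prop)))),
    fun p e => ⟨fun n => al (pr p ((decode n).getD ([] : List ℕ)).length) ((decode n).getD []),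
      fun n v => by simp only [pr_len, exists_eq_left], fun f => ?_⟩⟩
  simp only [encodek, Option.getD_some, pr_len]
  let P := fun l => ∃ i < l, ∃ v < l, p i = Nat.pair (f 0) v + 1
  have h1 : ∀ l, (∃ y ∈ pr p l, y ≠ 0 ∧ (y - 1).unpair.1 = (pr f l).getD 0 0 ∧
      (y - 1).unpair.2 < (pr f l).length) ↔ P l := fun l => by
    rw [pr_len]
    refine ⟨fun ⟨y, a1, a2, a3, a4⟩ => ?_, fun ⟨i, a1, v, a2, a3⟩ => ⟨p i, List.mem_map_of_mem
      (List.mem_range.2 a1), by omega, by rw [pr_getD (by omega)]; simp [a3], by simpa [a3]⟩⟩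
    obtain ⟨i, a5, rfl⟩ := List.mem_map.1 a1
    refine ⟨i, List.mem_range.1 a5, _, a4, ?_⟩
    rw [← pr_getD (p := f) (k := l) (by omega), ← a3, Nat.pair_unpair]
    omega
  obtain ⟨i, hi⟩ : Nat.pair (f 0) (h (f 0)) ∈ {k | ∃ n, p n = k + 1} := e ▸ by simp [EP]
  classical
  have h2 : ∃ l, P l := ⟨i + h (f 0) + 1, i, by omega, _, by omega, hi⟩
  refine ⟨Nat.find h2, fun n hn => if_neg ((h1 n).not.2 (Nat.find_min h2 hn)), fun n hn => ?_⟩
  obtain ⟨j, a1, v, a2, a3⟩ := Nat.find_spec h2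
  have : Nat.pair (f 0) v ∈ EP h := e ▸ ⟨j, a3⟩
  simp only [EP, Set.mem_ofPred_eq, Nat.unpair_pair] at this
  have := k (f 0)
  rw [al, if_pos ((h1 n).2 ⟨j, by omega, v, by omega, a3⟩), Ph, pr_len, pr_getD (by omega)]
  congr 1
  refine if_congr ⟨fun ⟨t, _, u⟩ => ⟨t, ?_⟩, fun ⟨t, u⟩ => ?_⟩ rfl rfl
  · have := u.trans_le (B_ge _ _ _)
    rwa [pr_getD (by omega)] at u
  · have := u.trans_le (B_ge _ _ _)
    exact ⟨t, by omega, by rwa [pr_getD (by omega)]⟩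

end Pool.Agent.H.MP_9a65c4_lc
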